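import Pool.Agent.Helper55.SCH.Goals

set_option autoImplicit false

/-!
# Project SCH (MP_c13f7d_co): packet SCH-RED, the reduction to `T`
-/

namespace Pool.Agent.Helper49.SCH

open Finset Pool.Agent.Helper33.Schur Pool.Agent.Helper55.SCH

/-- the ordered monochromatic pairs -/
def FS (n : ℕ) (χ : ℕ → Fin 3) : Finset (ℕ × ℕ) :=
  (Icc 1 n ×ˢ Icc 1 n).filter
    (fun q : ℕ × ℕ => q.1 + q.2 ≤ n ∧ χ q.1 = χ q.2 ∧ χ q.2 = χ (q.1 + q.2))

theorem FS_le (n : ℕ) (χ : ℕ → Fin 3) : (FS n χ).card ≤ 2 * schurMono χ n := by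
  set U := (Icc 1 n ×ˢ Icc 1 n).filter
    (fun q : ℕ × ℕ => q.1 ≤ q.2 ∧ q.1 + q.2 ≤ n ∧ χ q.1 = χ q.2 ∧ χ q.2 = χ (q.1 + q.2)) with hU
  have h1 : FS n χ ⊆ U ∪ U.image (fun q => (q.2, q.1)) := by
    intro q hq
    rw [FS, mem_filter, mem_product] at hq
    obtain ⟨⟨m1, m2⟩, s, c1, c2⟩ := hq
    rw [mem_union]
    rcases le_total q.1 q.2 with h | h
    · left
      rw [hU, mem_filter, mem_product]
      exact ⟨⟨m1, m2⟩, h, s, c1, c2⟩
    · right
      rw [mem_image]
      refine ⟨(q.2, q.1), ?_, rfl⟩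
      rw [hU, mem_filter, mem_product]
      refine ⟨⟨m2, m1⟩, h, by simpa [add_comm] using s, c1.symm, ?_⟩
      simp only
      rw [add_comm]
      exact c1.trans c2
  have h3 : schurMono χ n = U.card := rfl
  rw [h3]
  refine (card_le_card h1).trans ((card_union_le _ _).trans ?_)
  have := card_image_le (s := U) (f := fun q : ℕ × ℕ => (q.2, q.1))
  omega

/-- the pairs of positive numbers with sum at most `M` -/
def PS (M : ℕ) : Finset (ℕ × ℕ) :=
  (Icc 1 M ×ˢ Icc 1 M).filter (fun q : ℕ × ℕ => q.1 + q.2 ≤ M)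

theorem PS_card (M : ℕ) : (2 * (PS M).card : ℝ) = (M : ℝ) * (M - 1) := by
  induction M with
  | zero => simp [PS]
  | succ M ih =>
    have h1 : PS (M + 1) = PS M ∪ (Icc 1 M).image (fun x => (x, M + 1 - x)) := by
      ext ⟨a, b⟩
      simp only [PS, mem_union, mem_filter, mem_product, mem_Icc, mem_image, Prod.mk.injEq]
      constructor
      · rintro ⟨⟨⟨h1, h2⟩, h3, h4⟩, h5⟩
        by_cases h : a + b ≤ M
        · left
          omega
        · right
          exact ⟨a, by omega, rfl, by omega⟩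
      · rintro (h | ⟨x, h1, h2, h3⟩)
        · omega
        · omega
    have h2 : Disjoint (PS M) ((Icc 1 M).image (fun x => (x, M + 1 - x))) := by
      rw [Finset.disjoint_left]
      rintro ⟨a, b⟩ h3 h4
      simp only [PS, mem_filter, mem_product, mem_Icc, mem_image, Prod.mk.injEq] at h3 h4
      obtain ⟨x, h5, h6, h7⟩ := h4
      omega
    have h3 : ((Icc 1 M).image (fun x => (x, M + 1 - x))).card = M := by
      rw [card_image_of_injOn]
      · simp
      · intro x _ y _ h
        exact (Prod.mk.inj h).1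
    rw [h1, card_union_of_disjoint h2, h3]
    push_cast
    linarith

theorem col_eq : ∀ k x y : Fin 3, x ≠ k → y ≠ k →
    decide (x = k + 1) = decide (y = k + 1) → x = y := by decide

theorem goalRED : G_RED := by
  intro n c d χ k hχ hcn
  set D := min n (max d (2 * c)) with hD
  have hDn : D ≤ n := min_le_left _ _
  have hcD : 2 * c ≤ D := le_min hcn (le_max_right _ _)
  have hDd : D < n → d ≤ D := by
    intro h
    have h1 : D = max d (2 * c) := by
      rcases min_choice n (max d (2 * c)) with h2 | h2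
      · omega
      · exact h2
    rw [h1]
    exact le_max_left _ _
  have hDk : 2 * c < D → D ≤ d := by
    intro h
    by_contra hcon
    have h1 : D ≤ max d (2 * c) := min_le_right _ _
    rcases max_choice d (2 * c) with h2 | h2
    · omega
    · omega
  clear_value D
  refine ⟨fun x => decide (χ x = k + 1), fun v => decide (χ (D + v) = k + 1), ?_⟩
  have hlow : ∀ x, 1 ≤ x → x ≤ c → χ x ≠ k := by
    intro x h1 h2 h3
    have := (hχ x (mem_Icc.2 ⟨h1, by omega⟩)).1 h3
    omega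
  have hup : ∀ x, D < x → x ≤ n → χ x ≠ k := by
    intro x h1 h2 h3
    have := (hχ x (mem_Icc.2 ⟨by omega, h2⟩)).1 h3
    have := hDd (by omega)
    omega
  have hmid : ∀ x, c < x → x ≤ d → x ≤ n → χ x = k := by
    intro x h1 h2 h3
    exact (hχ x (mem_Icc.2 ⟨by omega, h3⟩)).2 ⟨h1, h2⟩
  set A1 := (Icc 1 c ×ˢ Icc 1 c).filter
    (fun q : ℕ × ℕ => q.1 + q.2 ≤ c ∧ decide (χ q.1 = k + 1) = decide (χ q.2 = k + 1) ∧
      decide (χ q.2 = k + 1) = decide (χ (q.1 + q.2) = k + 1)) with hA1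
  set A2 := (Icc 1 c ×ˢ Icc 1 (n - D)).filter
    (fun q : ℕ × ℕ => q.1 + q.2 ≤ n - D ∧
      decide (χ q.1 = k + 1) = decide (χ (D + q.2) = k + 1) ∧
      decide (χ (D + q.2) = k + 1) = decide (χ (D + (q.1 + q.2)) = k + 1)) with hA2
  have hT : T c (n - D) (fun x => decide (χ x = k + 1)) (fun v => decide (χ (D + v) = k + 1)) =
      A1.card + 2 * A2.card := rfl
  set P := (PS (D - 2 * c)).image (fun q => (c + q.1, c + q.2)) with hP
  set I2 := A2.image (fun q => (q.1, D + q.2)) with hI2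
  set I3 := A2.image (fun q => (D + q.2, q.1)) with hI3
  have cP : P.card = (PS (D - 2 * c)).card := by
    rw [hP, card_image_of_injective]
    rintro ⟨a, b⟩ ⟨a', b'⟩ h
    simp only [Prod.mk.injEq] at h ⊢
    omega
  have cI2 : I2.card = A2.card := by
    rw [hI2, card_image_of_injective]
    rintro ⟨a, b⟩ ⟨a', b'⟩ h
    simp only [Prod.mk.injEq] at h ⊢
    omega
  have cI3 : I3.card = A2.card := by
    rw [hI3, card_image_of_injective]
    rintro ⟨a, b⟩ ⟨a', b'⟩ h
    simp only [Prod.mk.injEq] at h ⊢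
    omega
  -- positions
  have pP : ∀ q ∈ P, c < q.1 ∧ c < q.2 := by
    rintro ⟨a, b⟩ h
    simp only [hP, PS, mem_image, mem_filter, mem_product, mem_Icc, Prod.mk.injEq,
      Prod.exists] at h
    obtain ⟨x, y, h1, h2, h3⟩ := h
    simp only
    omega
  have pA1 : ∀ q ∈ A1, q.1 ≤ c ∧ q.2 ≤ c := by
    rintro ⟨a, b⟩ h
    simp only [hA1, mem_filter, mem_product, mem_Icc] at h
    simp only
    omega
  have pI2 : ∀ q ∈ I2, q.1 ≤ c ∧ c < q.2 := by
    rintro ⟨a, b⟩ h
    simp only [hI2, hA2, mem_image, mem_filter, mem_product, mem_Icc, Prod.mk.injEq,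
      Prod.exists] at h
    obtain ⟨x, y, h1, h2, h3⟩ := h
    simp only
    omega
  have pI3 : ∀ q ∈ I3, c < q.1 ∧ q.2 ≤ c := by
    rintro ⟨a, b⟩ h
    simp only [hI3, hA2, mem_image, mem_filter, mem_product, mem_Icc, Prod.mk.injEq,
      Prod.exists] at h
    obtain ⟨x, y, h1, h2, h3⟩ := h
    simp only
    omega
  -- inclusions
  have iP : P ⊆ FS n χ := by
    rintro ⟨a, b⟩ h
    simp only [hP, PS, mem_image, mem_filter, mem_product, mem_Icc, Prod.mk.injEq,
      Prod.exists] at h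
    obtain ⟨x, y, ⟨⟨⟨h1, h2⟩, h3, h4⟩, h5⟩, h6, h7⟩ := h
    have hd := hDk (by omega)
    simp only [FS, mem_filter, mem_product, mem_Icc]
    have e1 : χ a = k := hmid a (by omega) (by omega) (by omega)
    have e2 : χ b = k := hmid b (by omega) (by omega) (by omega)
    have e3 : χ (a + b) = k := hmid (a + b) (by omega) (by omega) (by omega)
    refine ⟨⟨⟨by omega, by omega⟩, by omega, by omega⟩, by omega, ?_, ?_⟩
    · rw [e1, e2]
    · rw [e2, e3]
  have iA1 : A1 ⊆ FS n χ := by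
    rintro ⟨a, b⟩ h
    simp only [hA1, mem_filter, mem_product, mem_Icc] at h
    obtain ⟨⟨⟨h1, h2⟩, h3, h4⟩, h5, h6, h7⟩ := h
    simp only [FS, mem_filter, mem_product, mem_Icc]
    refine ⟨⟨⟨by omega, by omega⟩, by omega, by omega⟩, by omega, ?_, ?_⟩
    · exact col_eq k _ _ (hlow a h1 h2) (hlow b h3 h4) h6
    · exact col_eq k _ _ (hlow b h3 h4) (hlow (a + b) (by omega) h5) h7
  have key : ∀ x y, 1 ≤ x → x ≤ c → 1 ≤ y → x + y ≤ n - D →
      decide (χ x = k + 1) = decide (χ (D + y) = k + 1) →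
      decide (χ (D + y) = k + 1) = decide (χ (D + (x + y)) = k + 1) →
      χ x = χ (D + y) ∧ χ (D + y) = χ (D + (x + y)) := by
    intro x y h1 h2 h3 h4 h5 h6
    exact ⟨col_eq k _ _ (hlow x h1 h2) (hup (D + y) (by omega) (by omega)) h5,
      col_eq k _ _ (hup (D + y) (by omega) (by omega))
        (hup (D + (x + y)) (by omega) (by omega)) h6⟩
  have iI2 : I2 ⊆ FS n χ := by
    rintro ⟨a, b⟩ h
    simp only [hI2, hA2, mem_image, mem_filter, mem_product, mem_Icc, Prod.mk.injEq,
      Prod.exists] at h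
    obtain ⟨x, y, ⟨⟨⟨h1, h2⟩, h3, h4⟩, h5, h6, h7⟩, rfl, rfl⟩ := h
    obtain ⟨k1, k2⟩ := key x y h1 h2 h3 h5 h6 h7
    simp only [FS, mem_filter, mem_product, mem_Icc]
    refine ⟨⟨⟨by omega, by omega⟩, by omega, by omega⟩, by omega, k1, ?_⟩
    rw [k2]
    congr 1
    omega
  have iI3 : I3 ⊆ FS n χ := by
    rintro ⟨a, b⟩ h
    simp only [hI3, hA2, mem_image, mem_filter, mem_product, mem_Icc, Prod.mk.injEq,
      Prod.exists] at h
    obtain ⟨x, y, ⟨⟨⟨h1, h2⟩, h3, h4⟩, h5, h6, h7⟩, rfl, rfl⟩ := h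
    obtain ⟨k1, k2⟩ := key x y h1 h2 h3 h5 h6 h7
    simp only [FS, mem_filter, mem_product, mem_Icc]
    refine ⟨⟨⟨by omega, by omega⟩, by omega, by omega⟩, by omega, k1.symm, ?_⟩
    rw [k1, k2]
    congr 1
    omega
  have d1 : Disjoint P A1 := by
    rw [Finset.disjoint_left]
    intro q h1 h2
    have := pP q h1
    have := pA1 q h2
    omega
  have d2 : Disjoint (P ∪ A1) I2 := by
    rw [Finset.disjoint_left]
    intro q h1 h2
    have := pI2 q h2
    rcases mem_union.1 h1 with h | h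
    · have := pP q h
      omega
    · have := pA1 q h
      omega
  have d3 : Disjoint (P ∪ A1 ∪ I2) I3 := by
    rw [Finset.disjoint_left]
    intro q h1 h2
    have := pI3 q h2
    rcases mem_union.1 h1 with h | h
    · rcases mem_union.1 h with h | h
      · have := pP q h
        omega
      · have := pA1 q h
        omega
    · have := pI2 q h
      omega
  have hsub : P ∪ A1 ∪ I2 ∪ I3 ⊆ FS n χ :=
    union_subset (union_subset (union_subset iP iA1) iI2) iI3
  have hcard := card_le_card hsub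
  rw [card_union_of_disjoint d3, card_union_of_disjoint d2, card_union_of_disjoint d1, cP, cI2,
    cI3] at hcard
  have hF := FS_le n χ
  have hPS := PS_card (D - 2 * c)
  rw [hT]
  have hfin : (PS (D - 2 * c)).card + (A1.card + 2 * A2.card) ≤ 2 * schurMono χ n := by omega
  have hfin' : ((PS (D - 2 * c)).card : ℝ) + ((A1.card + 2 * A2.card : ℕ) : ℝ) ≤
      2 * schurMono χ n := by exact_mod_cast hfin
  linarith

end Pool.Agent.Helper49.SCH
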